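import Pool.Agent.NGM.StmtsK

set_option autoImplicit false

namespace Pool.Agent.NGM.H21

open scoped Pointwise Classical
open Filter Topology Pool.Agent.NGM

theorem wk_succ {Q : Type*} [Group Q] (K : Finset Q) (n : ℕ) (x : Q) :
    wk K (n + 1) x = (K.card : ℝ)⁻¹ * ∑ s ∈ K, wk K n (x * s) := by
  unfold wk
  rw [Function.iterate_succ_apply']
  rfl

theorem wk_supp {Q : Type*} [Group Q] {K : Finset Q} (hK : GenSet K) (n : ℕ) :
    ∀ x, wk K n x ≠ 0 → x ∈ K ^ n := by
  induction n with
  | zero =>
    intro x hx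
    have : x = 1 := by
      by_contra h
      exact hx (by simp [wk, h])
    rw [this]; simp
  | succ n ih =>
    intro x hx
    rw [wk_succ] at hx
    have h1 : ∑ s ∈ K, wk K n (x * s) ≠ 0 := right_ne_zero_of_mul hx
    obtain ⟨s, hs, hne⟩ := Finset.exists_ne_zero_of_sum_ne_zero h1
    have h2 := ih _ hne
    rw [pow_succ]
    have h3 : x = (x * s) * s⁻¹ := by group
    rw [h3]
    exact Finset.mul_mem_mul h2 (hK.inv s hs)

theorem wk_nonneg {Q : Type*} [Group Q] (K : Finset Q) (n : ℕ) : ∀ x, 0 ≤ wk K n x := by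
  induction n with
  | zero =>
    intro x
    unfold wk
    simp only [Function.iterate_zero, id]
    split_ifs <;> norm_num
  | succ n ih =>
    intro x
    rw [wk_succ]
    exact mul_nonneg (by positivity) (Finset.sum_nonneg fun s _ => ih _)

theorem sum_inv {Q : Type*} [Group Q] {K : Finset Q} (hK : GenSet K) (g : Q → ℝ) :
    ∑ s ∈ K, g s⁻¹ = ∑ s ∈ K, g s := by
  refine Finset.sum_nbij' (fun s => s⁻¹) (fun s => s⁻¹) (fun s hs => hK.inv s hs)
    (fun s hs => hK.inv s hs) (fun s _ => inv_inv s) (fun s _ => inv_inv s) (fun s _ => rfl)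

theorem formula {Q : Type*} [Group Q] {K : Finset Q} (hK : GenSet K) (n : ℕ) :
    ∀ (f : Q → ℝ) (y : Q), (av K)^[n] f y = ∑ x ∈ K ^ n, wk K n x * f (y * x) := by
  induction n with
  | zero =>
    intro f y
    simp [wk]
  | succ n ih =>
    intro f y
    rw [Function.iterate_succ_apply, ih]
    have h1 : ∀ s ∈ K, ∑ x ∈ K ^ n, wk K n x * f (y * x * s) =
        ∑ z ∈ K ^ (n + 1), wk K n (z * s⁻¹) * f (y * z) := by
      intro s hs
      have h2 : (K ^ n).image (fun x => x * s) ⊆ K ^ (n + 1) := by
        intro z hz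
        obtain ⟨x, hx, rfl⟩ := Finset.mem_image.1 hz
        rw [pow_succ]
        exact Finset.mul_mem_mul hx hs
      rw [← Finset.sum_subset h2, Finset.sum_image]
      · refine Finset.sum_congr rfl fun x _ => ?_
        rw [mul_assoc x s s⁻¹, mul_inv_cancel, mul_one, mul_assoc]
      · intro a _ b _ hab
        exact mul_right_cancel hab
      · intro z _ hz
        by_cases h0 : wk K n (z * s⁻¹) = 0
        · rw [h0, zero_mul]
        · exfalso
          apply hz
          refine Finset.mem_image.2 ⟨z * s⁻¹, wk_supp hK n _ h0, ?_⟩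
          group
    have h3 : ∑ x ∈ K ^ n, wk K n x * av K f (y * x) =
        (K.card : ℝ)⁻¹ * ∑ s ∈ K, ∑ x ∈ K ^ n, wk K n x * f (y * x * s) := by
      unfold av
      rw [Finset.sum_comm, Finset.mul_sum]
      refine Finset.sum_congr rfl fun x _ => ?_
      rw [← Finset.mul_sum]
      ring
    rw [h3, Finset.sum_congr rfl h1, Finset.sum_comm, Finset.mul_sum]
    refine Finset.sum_congr rfl fun z _ => ?_
    rw [wk_succ, ← sum_inv hK (fun s => wk K n (z * s)), ← Finset.sum_mul]
    ring

/-- left average -/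
noncomputable def lv {Q : Type*} [Group Q] (K : Finset Q) (f : Q → ℝ) (x : Q) : ℝ :=
  (K.card : ℝ)⁻¹ * ∑ s ∈ K, f (s * x)

theorem lv_av {Q : Type*} [Group Q] (K : Finset Q) (f : Q → ℝ) :
    lv K (av K f) = av K (lv K f) := by
  funext x
  unfold lv av
  congr 1
  rw [← Finset.mul_sum, ← Finset.mul_sum, Finset.sum_comm]
  congr 1
  refine Finset.sum_congr rfl fun s _ => Finset.sum_congr rfl fun t _ => ?_
  rw [mul_assoc]

theorem lv_wk {Q : Type*} [Group Q] (K : Finset Q) (n : ℕ) : lv K (wk K n) = wk K (n + 1) := by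
  induction n with
  | zero =>
    funext x
    rw [wk_succ]
    unfold lv
    congr 1
    refine Finset.sum_congr rfl fun s _ => ?_
    unfold wk
    simp only [Function.iterate_zero, id]
    have : s * x = 1 ↔ x * s = 1 := by
      constructor
      · intro h
        rw [mul_eq_one_iff_eq_inv] at h
        rw [h]; group
      · intro h
        rw [mul_eq_one_iff_eq_inv] at h
        rw [h]; group
    simp only [this]
  | succ n ih =>
    have h1 : ∀ m, wk K (m + 1) = av K (wk K m) := by
      intro m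
      unfold wk
      rw [Function.iterate_succ_apply']
    rw [h1 n, lv_av, ih, ← h1]

theorem wk_inv {Q : Type*} [Group Q] {K : Finset Q} (hK : GenSet K) (n : ℕ) :
    ∀ x, wk K n x⁻¹ = wk K n x := by
  induction n with
  | zero =>
    intro x
    unfold wk
    simp
  | succ n ih =>
    intro x
    have h1 : ∀ s ∈ K, wk K n (x⁻¹ * s) = wk K n (s⁻¹ * x) := by
      intro s _
      have e : x⁻¹ * s = (s⁻¹ * x)⁻¹ := by group
      rw [e, ih]
    rw [wk_succ, Finset.sum_congr rfl h1, sum_inv hK (fun s => wk K n (s * x))]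
    exact congrFun (lv_wk K n) x

theorem av_one {Q : Type*} [Group Q] {K : Finset Q} (hK : GenSet K) (n : ℕ) :
    ∀ y : Q, (av K)^[n] (fun _ => (1 : ℝ)) y = 1 := by
  have h : av K (fun _ => (1 : ℝ)) = fun _ => 1 := by
    funext x
    unfold av
    have hc : (K.card : ℝ) ≠ 0 := by
      have : K.Nonempty := ⟨1, hK.one⟩
      exact_mod_cast this.card_pos.ne'
    simp [hc]
  induction n with
  | zero => intro y; rfl
  | succ n ih => intro y; rw [Function.iterate_succ_apply, h]; exact ih y

/-- row WK -/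
theorem wk : WkStmt := by
  intro Q _ K hK n
  refine ⟨wk_nonneg K n, wk_supp hK n, wk_inv hK n, formula hK n, ?_, ?_⟩
  · have h := formula hK n (fun _ => (1 : ℝ)) 1
    rw [av_one hK] at h
    rw [h]
    exact Finset.sum_congr rfl fun x _ => by ring
  · intro m x
    have h0 : ∀ z : Q, Pool.Agent.NGM.wk K (m + n) z =
        ∑ y ∈ K ^ m, Pool.Agent.NGM.wk K m y * Pool.Agent.NGM.wk K n (z * y) := by
      intro z
      rw [← formula hK m (Pool.Agent.NGM.wk K n) z]
      unfold Pool.Agent.NGM.wk
      rw [Function.iterate_add_apply]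
    rw [← wk_inv hK (m + n) x, h0]
    refine Finset.sum_congr rfl fun y _ => ?_
    have e : x⁻¹ * y = (y⁻¹ * x)⁻¹ := by group
    rw [e, wk_inv hK n]

end Pool.Agent.NGM.H21
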